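import Pool.Agent.Helper99.LB.Gen3

/-!
G3': reduction of symmetric data to the half plane, conclusion.
-/

open MeasureTheory Set Real Module
open scoped ContDiff RealInnerProductSpace

namespace Pool.Agent.Helper99.LB.Gen

open Pool.Agent.Helper19.LB

open FBM

set_option linter.unusedSectionVars false

section Fin

variable {n k : ℕ} {Om : Type} [TopologicalSpace Om] [CompactSpace Om] [SecondCountableTopology Om]
  [MeasurableSpace Om] [BorelSpace Om] {nu : Measure Om} [IsProbabilityMeasure nu]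
  {w : FD n k Om}

lemma inner_X_pos {X : E n → E n} (θ : Om) (x : Pt) :
    ⟪X (pos w x θ), pos w x θ⟫ = x.1 * tA w X θ x + x.2 * tB w X θ x := by
  unfold tA tB tst
  conv_lhs => rw [show ⟪X (pos w x θ), pos w x θ⟫
    = ⟪X (pos w x θ), x.1 • Rh w θ + x.2 • ax w⟫ from rfl]
  rw [inner_add_right, inner_smul_right, inner_smul_right]

lemma norm_sphere (hw : Ok w nu) (s : ℝ) (θ : Om) :
    ‖Fs' w (s, θ)‖ = 1 := by
  have h := norm_pos_sq hw (sin s, cos s) θ
  have h0 := norm_nonneg (pos w (sin s, cos s) θ)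
  have h1 : ‖pos w (sin s, cos s) θ‖ ^ 2 = 1 := by rw [h]; exact sin_sq_add_cos_sq s
  change ‖pos w (sin s, cos s) θ‖ = 1
  nlinarith

/-- The boundary term. -/
lemma int_s (hw : Ok w nu) (s0 : Measure ℝ) [IsFiniteMeasure s0]
    {X : E n → E n} (hX : ContDiff ℝ ∞ X) :
    ∫ x, ⟪X x, x⟫ ∂((s0.prod nu).map (Fs' w)) =
      ∫ θ, (∫ s, (sin s * tA w X θ (sin s, cos s) + cos s * tB w X θ (sin s, cos s)) ∂s0)
        ∂nu := by
  obtain ⟨M, hM0, hM⟩ := exists_bound hX
  have hc : Continuous fun x : E n => ⟪X x, x⟫ := hX.continuous.inner continuous_id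
  rw [integral_map (continuous_Fs _ hw).measurable.aemeasurable hc.aestronglyMeasurable]
  have hi : Integrable (fun z => ⟪X (Fs' w z), Fs' w z⟫) (s0.prod nu) := by
    refine Integrable.of_bound (hc.comp (continuous_Fs _ hw)).aestronglyMeasurable M ?_
    refine Filter.Eventually.of_forall fun z => ?_
    have h1 : ‖Fs' w z‖ = 1 := norm_sphere hw z.1 z.2
    calc ‖⟪X (Fs' w z), Fs' w z⟫‖ ≤ ‖X (Fs' w z)‖ * ‖Fs' w z‖ := norm_inner_le_norm _ _
      _ ≤ M := by rw [h1, mul_one]; exact (hM _ h1.le).2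
  rw [integral_prod _ hi]
  have h2 := integral_integral_swap (μ := s0) (ν := nu)
    (f := fun s θ => ⟪X (Fs' w (s, θ)), Fs' w (s, θ)⟫) hi
  rw [h2]
  refine integral_congr_ae (Filter.Eventually.of_forall fun θ => ?_)
  refine integral_congr_ae (Filter.Eventually.of_forall fun s => ?_)
  exact inner_X_pos θ (sin s, cos s)

end Fin

/-- G3': reduction to the half plane, for a general family of frames. -/
theorem reduction_gen {k : ℕ} (hk : 3 ≤ k) {n : ℕ} {Om : Type} [TopologicalSpace Om] [CompactSpace Om]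
    [SecondCountableTopology Om] [MeasurableSpace Om] [BorelSpace Om] {nu : Measure Om}
    {R : Om → E n} {T : Om → Fin k → E n} {a : E n} (hF : Family n k nu R T a)
    {r : (Pt → ℝ) → (Pt → ℝ) → ℝ} (hr : Rep k r)
    (s0 : Measure ℝ) [IsFiniteMeasure s0]
    (h : ∀ A B : Pt → ℝ, ContDiff ℝ ∞ A → ContDiff ℝ ∞ B →
      r A B = ∫ s, (sin s * A (sin s, cos s) + cos s * B (sin s, cos s)) ∂s0) :
    ∃ (μ : Measure (E n × (Fin k → E n))) (σ : Measure (E n))
      (e : E n), ‖e‖ = 1 ∧
      IsFreeBoundaryStationary k μ Prod.fst (fun p => Submodule.span ℝ (range p.2)) σ id ∧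
      ∀ f : ℝ → ℝ, Continuous f → ∫ x, f ⟪e, x⟫ ∂σ = ∫ s, f (cos s) ∂s0 := by
  have hprob : IsProbabilityMeasure nu := hF.prob
  obtain ⟨la, lc, lb, fa, fb, fc, da, db, dc, ia, ib, ic, hrep⟩ := hr
  let w : FD n k Om := ⟨R, T, a⟩
  have hw : Ok w nu := hF
  have hk0 : 0 < k := by omega
  have h2k : 2 ≤ k := by omega
  have hcnt := isProb_cnt hk0
  set νa := (la.prod nu).prod (cnt k) with hνa
  set νb := (lb.prod nu).prod (cnt k) with hνb
  set νc := lc.prod nu with hνc
  have Fra : ∀ᵐ z ∂νa, Fr (Fa' w z) := by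
    have h1 : ∀ᵐ p ∂(la.prod nu), p.1 ∈ disc := Measure.quasiMeasurePreserving_fst.ae da
    have h2 : ∀ᵐ z ∂νa, z.1.1 ∈ disc := Measure.quasiMeasurePreserving_fst.ae h1
    filter_upwards [h2] with z hz
    exact Fr_a hw h2k hz z.1.2 z.2
  have Frb : ∀ᵐ z ∂νb, Fr (Fb' w z) := by
    have h1 : ∀ᵐ p ∂(lb.prod nu), p.1.1 ∈ disc ∧ p.1.2.1 ^ 2 + p.1.2.2 ^ 2 = 1 :=
      Measure.quasiMeasurePreserving_fst.ae db
    have h2 : ∀ᵐ z ∂νb, z.1.1.1 ∈ disc ∧ z.1.1.2.1 ^ 2 + z.1.1.2.2 ^ 2 = 1 :=
      Measure.quasiMeasurePreserving_fst.ae h1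
    filter_upwards [h2] with z hz
    exact Fr_b hw hz.1 hz.2 z.1.2 z.2
  have Frc : ∀ᵐ z ∂νc, Fr (Fc' w z) := by
    have h1 : ∀ᵐ p ∂νc, p.1 ∈ disc := Measure.quasiMeasurePreserving_fst.ae dc
    filter_upwards [h1] with z hz
    exact Fr_c hw hz z.2
  set μ : Measure (E n × (Fin k → E n)) :=
    νa.map (Fa' w) + νb.map (Fb' w) + νc.map (Fc' w) with hμ
  have Frμ : ∀ᵐ p ∂μ, Fr p := by
    rw [hμ, ae_add_measure_iff, ae_add_measure_iff]
    exact ⟨⟨ae_Fr_map (measurable_Fa _ hw) Fra, ae_Fr_map (measurable_Fb _ hw) Frb⟩,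
      ae_Fr_map (measurable_Fc _ hw) Frc⟩
  have fμ : IsFiniteMeasure μ := by rw [hμ]; infer_instance
  refine ⟨μ, (s0.prod nu).map (Fs' w), ax w, norm_ax' hw, ?_, ?_⟩
  · refine ⟨fμ, inferInstance, measurable_fst.aemeasurable, aesm_proj Frμ,
      measurable_id.aemeasurable, Frμ.mono fun p hp => hp.1,
      Frμ.mono fun p hp => finrank_frame hp.2, ?_, ?_⟩
    · have hcl : MeasurableSet {x : E n | ‖x‖ = 1} :=
        (isClosed_eq continuous_norm continuous_const).measurableSet
      have := (ae_map_iff (μ := s0.prod nu) (continuous_Fs _ hw).measurable.aemeasurable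
        hcl).mpr (Filter.Eventually.of_forall fun z => norm_sphere hw z.1 z.2)
      exact this
    · intro X hX
      have e1 : ∫ p, divAlong (Submodule.span ℝ (range p.2)) X p.1 ∂μ = ∫ p, DX X p ∂μ := by
        refine integral_congr_ae ?_
        filter_upwards [Frμ] with p hp
        exact div_frame hp.2 X p.1
      have mDX : Continuous (DX (n := n) (k := k) X) := continuous_DX hX
      have ja : Integrable (DX X) (νa.map (Fa' w)) :=
        (integrable_map_measure mDX.aestronglyMeasurable (measurable_Fa _ hw).aemeasurable).mpr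
          (integrable_DX (measurable_Fa _ hw) Fra hX)
      have jb : Integrable (DX X) (νb.map (Fb' w)) :=
        (integrable_map_measure mDX.aestronglyMeasurable (measurable_Fb _ hw).aemeasurable).mpr
          (integrable_DX (measurable_Fb _ hw) Frb hX)
      have jc : Integrable (DX X) (νc.map (Fc' w)) :=
        (integrable_map_measure mDX.aestronglyMeasurable (measurable_Fc _ hw).aemeasurable).mpr
          (integrable_DX (measurable_Fc _ hw) Frc hX)
      have e2 : ∫ p, DX X p ∂μ = ∫ z, DX X (Fa' w z) ∂νa + ∫ z, DX X (Fb' w z) ∂νb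
          + ∫ z, DX X (Fc' w z) ∂νc := by
        rw [hμ, integral_add_measure (ja.add_measure jb) jc, integral_add_measure ja jb,
          integral_map (measurable_Fa _ hw).aemeasurable mDX.aestronglyMeasurable,
          integral_map (measurable_Fb _ hw).aemeasurable mDX.aestronglyMeasurable,
          integral_map (measurable_Fc _ hw).aemeasurable mDX.aestronglyMeasurable]
      obtain ⟨ka, ea⟩ := int_a hw hk0 h2k la da ia hX
      obtain ⟨kb, eb⟩ := int_b hw hk0 lb db ib hX
      obtain ⟨kc, ec⟩ := int_c hw hk0 lc dc ic hX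
      have e3 : ∫ x, ⟪X (id x), id x⟫ ∂((s0.prod nu).map (Fs' w)) =
        ∫ θ, (∫ s, (sin s * tA w X θ (sin s, cos s) + cos s * tB w X θ (sin s, cos s)) ∂s0)
        ∂nu := int_s hw s0 hX
      have e5 := integral_add (ka.add kb) kc
      have e6 := integral_add ka kb
      simp only [Pi.add_apply] at e5
      rw [e1, e2, hνa, hνb, hνc, ea, eb, ec, e3, ← e6, ← e5]
      refine integral_congr_ae (Filter.Eventually.of_forall fun θ => ?_)
      simp only
      have cA : ContDiff ℝ ∞ (tA w X θ) := contDiff_tst w hX θ _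
      have cB : ContDiff ℝ ∞ (tB w X θ) := contDiff_tst w hX θ _
      rw [← h _ _ cA cB, ← hrep _ _ cA cB]
  · intro f hf
    have hc : Continuous fun x : E n => f ⟪ax w, x⟫ :=
      hf.comp (continuous_const.inner continuous_id)
    rw [integral_map (continuous_Fs _ hw).measurable.aemeasurable hc.aestronglyMeasurable]
    have e4 : ∀ z : ℝ × Om, f ⟪ax w, Fs' w z⟫ = f (cos z.1) := by
      intro z
      have := inner_ax_pos hw (sin z.1, cos z.1) z.2
      have h5 : ⟪ax w, Fs' w z⟫ = cos z.1 := this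
      rw [h5]
    simp only [e4]
    rw [integral_fun_fst (fun s => f (cos s))]
    simp

end Pool.Agent.Helper99.LB.Gen
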