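import Pool.Agent.Helper99.LB.Red4
import Pool.Agent.Helper19.LB.Fam

/-!
G3': reduction of symmetric data to the half plane, for a general family of frames.
-/

open MeasureTheory Set Real Module
open scoped ContDiff RealInnerProductSpace

namespace Pool.Agent.Helper99.LB.Gen

open Pool.Agent.Helper19.LB

open FBM

/-- A family of frames. -/
structure FD (n k : ℕ) (Om : Type) where
  /-- The radial vector. -/
  R : Om → E n
  /-- The angular vectors. -/
  T : Om → Fin k → E n
  /-- The axis. -/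
  a : E n

section Cont

variable {n k : ℕ} {Om : Type} (w : FD n k Om)

/-- The radial vector. -/
def Rh (θ : Om) : E n := w.R θ

/-- The angular vectors. -/
def th (θ : Om) (j : Fin k) : E n := w.T θ j

/-- The axis. -/
def ax : E n := w.a

/-- The position. -/
noncomputable def pos (x : Pt) (θ : Om) : E n := x.1 • Rh w θ + x.2 • ax w

/-- The conditions on the frames. -/
abbrev Ok [TopologicalSpace Om] [MeasurableSpace Om] (nu : Measure Om) : Prop :=
  Family n k nu w.R w.T w.a

variable [TopologicalSpace Om] [MeasurableSpace Om] {nu : Measure Om} {w}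

lemma continuous_Rh (hw : Ok w nu) : Continuous fun θ : Om => Rh w θ := hw.cont_R

lemma continuous_th (hw : Ok w nu) (j : Fin k) : Continuous fun θ : Om => th w θ j := hw.cont_T j

lemma continuous_pos (hw : Ok w nu) : Continuous fun p : Pt × Om => pos w p.1 p.2 := by
  unfold pos
  have h1 : Continuous fun p : Pt × Om => Rh w p.2 := (continuous_Rh hw).comp continuous_snd
  fun_prop

lemma continuous_th' (hw : Ok w nu) : Continuous fun θ : Om => th w θ :=
  continuous_pi fun j => continuous_th hw j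

lemma norm_Rh (hw : Ok w nu) (θ : Om) : ‖Rh w θ‖ = 1 := hw.norm_R θ

lemma norm_ax' (hw : Ok w nu) : ‖ax w‖ = 1 := hw.norm_a

lemma inner_Rh_ax (hw : Ok w nu) (θ : Om) : ⟪Rh w θ, ax w⟫ = 0 := hw.inner_R_a θ

lemma inner_Rh_th (hw : Ok w nu) (θ : Om) (j : Fin k) : ⟪Rh w θ, th w θ j⟫ = 0 :=
  hw.inner_R_T θ j

lemma inner_ax_th (hw : Ok w nu) (θ : Om) (j : Fin k) : ⟪ax w, th w θ j⟫ = 0 :=
  hw.inner_a_T θ j

lemma orthonormal_th (hw : Ok w nu) (θ : Om) : Orthonormal ℝ (th w θ) := hw.orth_T θ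

end Cont

section Frames

variable {n k : ℕ} {Om : Type} [TopologicalSpace Om] [MeasurableSpace Om] {nu : Measure Om}
  {w : FD n k Om} (hw : Ok w nu)

include hw

lemma norm_pos_sq (x : Pt) (θ : Om) : ‖pos w x θ‖ ^ 2 = x.1 ^ 2 + x.2 ^ 2 := by
  have h1 := norm_Rh hw θ
  have h2 := norm_ax' hw
  have h3 := inner_Rh_ax hw θ
  unfold pos
  rw [norm_add_sq_real, norm_smul, norm_smul, h1, h2, inner_smul_left, inner_smul_right, h3]
  simp

lemma inner_ax_pos (x : Pt) (θ : Om) : ⟪ax w, pos w x θ⟫ = x.2 := by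
  have h2 := norm_ax' hw
  have h3 := inner_Rh_ax hw θ
  rw [real_inner_comm] at h3
  unfold pos
  rw [inner_add_right, inner_smul_right, inner_smul_right, h3, real_inner_self_eq_norm_sq, h2]
  simp

omit hw in
/-- The planes of type (a). -/
noncomputable def Va (w : FD n k Om) (θ : Om) (i : Fin k) : Fin k → E n :=
  Function.update (Function.update (th w θ) i (Rh w θ)) (finRotate k i) (ax w)

omit hw in
/-- The planes of type (b). -/
noncomputable def Vb (w : FD n k Om) (τ : Pt) (θ : Om) (i : Fin k) :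
    Fin k → E n :=
  Function.update (th w θ) i (τ.1 • Rh w θ + τ.2 • ax w)

lemma orthonormal_Va (_h2 : 2 ≤ k) (θ : Om) (i : Fin k) : Orthonormal ℝ (Va w θ i) := by
  unfold Va
  refine orthonormal_update (orthonormal_update (orthonormal_th hw θ) i (norm_Rh hw θ)
    fun j _ => inner_Rh_th hw θ j) _ (norm_ax' hw) fun j hj => ?_
  by_cases hji : j = i
  · subst hji
    rw [Function.update_self, real_inner_comm]
    exact inner_Rh_ax hw θ
  · rw [Function.update_of_ne hji]
    exact inner_ax_th hw θ j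

lemma orthonormal_Vb {τ : Pt} (hτ : τ.1 ^ 2 + τ.2 ^ 2 = 1) (θ : Om) (i : Fin k) :
    Orthonormal ℝ (Vb w τ θ i) := by
  unfold Vb
  refine orthonormal_update (orthonormal_th hw θ) i ?_ fun j _ => ?_
  · have h := norm_pos_sq hw τ θ
    unfold pos at h
    rw [hτ] at h
    have h0 := norm_nonneg (τ.1 • Rh w θ + τ.2 • ax w)
    nlinarith
  · rw [inner_add_left, inner_smul_left, inner_smul_left, inner_Rh_th hw, inner_ax_th hw]
    simp

end Frames

section Test

variable {n k : ℕ} {Om : Type} (w : FD n k Om)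

/-- The component of `X` in the direction `u` as a function on the half plane. -/
noncomputable def tst (X : E n → E n) (θ : Om) (u : E n) (x : Pt) : ℝ :=
  ⟪X (pos w x θ), u⟫

lemma contDiff_pos (θ : Om) : ContDiff ℝ ∞ fun x : Pt => pos w x θ := by
  unfold pos
  exact (contDiff_fst.smul contDiff_const).add (contDiff_snd.smul contDiff_const)

lemma contDiff_tst {X : E n → E n} (hX : ContDiff ℝ ∞ X) (θ : Om) (u : E n) :
    ContDiff ℝ ∞ (tst w X θ u) := by
  unfold tst
  exact (hX.comp (contDiff_pos w θ)).inner ℝ contDiff_const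

lemma fderiv_tst {X : E n → E n} (hX : ContDiff ℝ ∞ X) (θ : Om) (u : E n) (x v : Pt) :
    fderiv ℝ (tst w X θ u) x v
      = ⟪fderiv ℝ X (pos w x θ) (v.1 • Rh w θ + v.2 • ax w), u⟫ := by
  have hXd : HasFDerivAt X (fderiv ℝ X (pos w x θ)) (pos w x θ) :=
    (hX.differentiable (by simp)).differentiableAt.hasFDerivAt
  have hp : HasFDerivAt (fun x : Pt => pos w x θ)
      ((ContinuousLinearMap.fst ℝ ℝ ℝ).smulRight (Rh w θ)
        + (ContinuousLinearMap.snd ℝ ℝ ℝ).smulRight (ax w)) x := by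
    unfold pos
    exact (hasFDerivAt_fst.smul_const _).add (hasFDerivAt_snd.smul_const _)
  have h := (hXd.comp x hp).inner ℝ (hasFDerivAt_const u x)
  have h' : HasFDerivAt (tst w X θ u) _ x := h
  rw [h'.fderiv]
  simp

lemma dr_tst {X : E n → E n} (hX : ContDiff ℝ ∞ X) (θ : Om) (u : E n) (x : Pt) :
    dr (tst w X θ u) x = ⟪u, fderiv ℝ X (pos w x θ) (Rh w θ)⟫ := by
  rw [dr, fderiv_tst w hX, real_inner_comm]
  simp

lemma dz_tst {X : E n → E n} (hX : ContDiff ℝ ∞ X) (θ : Om) (u : E n) (x : Pt) :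
    dz (tst w X θ u) x = ⟪u, fderiv ℝ X (pos w x θ) (ax w)⟫ := by
  rw [dz, fderiv_tst w hX, real_inner_comm]
  simp

/-- The sum of the angular derivatives. -/
noncomputable def ang (X : E n → E n) (x : Pt) (θ : Om) : ℝ :=
  ∑ j, ⟪th w θ j, fderiv ℝ X (pos w x θ) (th w θ j)⟫

lemma DX_c (X : E n → E n) (x : Pt) (θ : Om) :
    DX X (pos w x θ, th w θ) = ang w X x θ := rfl

lemma DX_b {X : E n → E n} (hX : ContDiff ℝ ∞ X) (x τ : Pt) (θ : Om) :
    ∑ i, DX X (pos w x θ, Vb w τ θ i) =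
      k * (τ.1 ^ 2 * dr (tst w X θ (Rh w θ)) x
        + τ.1 * τ.2 * (dz (tst w X θ (Rh w θ)) x + dr (tst w X θ (ax w)) x)
        + τ.2 ^ 2 * dz (tst w X θ (ax w)) x) + (k - 1) * ang w X x θ := by
  have h1 : ∀ i : Fin k, DX X (pos w x θ, Vb w τ θ i) =
      ang w X x θ - ⟪th w θ i, fderiv ℝ X (pos w x θ) (th w θ i)⟫ +
        (τ.1 ^ 2 * dr (tst w X θ (Rh w θ)) x
        + τ.1 * τ.2 * (dz (tst w X θ (Rh w θ)) x + dr (tst w X θ (ax w)) x)
        + τ.2 ^ 2 * dz (tst w X θ (ax w)) x) := by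
    intro i
    rw [dr_tst w hX, dz_tst w hX, dr_tst w hX, dz_tst w hX]
    simp only [DX, Vb]
    rw [sum_update' (fun v => ⟪v, fderiv ℝ X (pos w x θ) v⟫) (th w θ) i]
    rw [map_add, map_smul, map_smul, inner_add_left, inner_smul_left, inner_smul_left,
      inner_add_right, inner_add_right, inner_smul_right, inner_smul_right, inner_smul_right,
      inner_smul_right]
    simp only [ang, RCLike.conj_to_real]
    ring
  simp only [h1]
  rw [Finset.sum_add_distrib, Finset.sum_sub_distrib]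
  simp only [Finset.sum_const, Finset.card_univ, Fintype.card_fin, nsmul_eq_mul]
  have h2 : ∑ i, ⟪th w θ i, fderiv ℝ X (pos w x θ) (th w θ i)⟫ = ang w X x θ := rfl
  rw [h2]
  ring

lemma DX_a (h2 : 2 ≤ k) {X : E n → E n} (hX : ContDiff ℝ ∞ X) (x : Pt) (θ : Om) :
    ∑ i, DX X (pos w x θ, Va w θ i) =
      k * (dr (tst w X θ (Rh w θ)) x + dz (tst w X θ (ax w)) x) + (k - 2) * ang w X x θ := by
  have h1 : ∀ i : Fin k, DX X (pos w x θ, Va w θ i) =
      ang w X x θ - ⟪th w θ i, fderiv ℝ X (pos w x θ) (th w θ i)⟫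
        - ⟪th w θ (finRotate k i), fderiv ℝ X (pos w x θ) (th w θ (finRotate k i))⟫ +
        (dr (tst w X θ (Rh w θ)) x + dz (tst w X θ (ax w)) x) := by
    intro i
    rw [dr_tst w hX, dz_tst w hX]
    simp only [DX, Va]
    rw [sum_update' (fun v => ⟪v, fderiv ℝ X (pos w x θ) v⟫),
      sum_update' (fun v => ⟪v, fderiv ℝ X (pos w x θ) v⟫) (th w θ) i,
      Function.update_of_ne (rot_ne h2 i)]
    simp only [ang]
    ring
  simp only [h1]
  rw [Finset.sum_add_distrib, Finset.sum_sub_distrib, Finset.sum_sub_distrib]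
  simp only [Finset.sum_const, Finset.card_univ, Fintype.card_fin, nsmul_eq_mul]
  have h3 : ∑ i, ⟪th w θ i, fderiv ℝ X (pos w x θ) (th w θ i)⟫ = ang w X x θ := rfl
  have h4 : ∑ i, ⟪th w θ (finRotate k i), fderiv ℝ X (pos w x θ) (th w θ (finRotate k i))⟫
      = ang w X x θ := by
    rw [← h3]
    exact Equiv.sum_comp (finRotate k) (fun j => ⟪th w θ j, fderiv ℝ X (pos w x θ) (th w θ j)⟫)
  rw [h3, h4]
  ring

end Test

end Pool.Agent.Helper99.LB.Gen
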