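import Pool.Agent.Helper99.LB.Gen

/-!
G3': reduction of symmetric data to the half plane, measures.
-/

open MeasureTheory Set Real Module
open scoped ContDiff RealInnerProductSpace

namespace Pool.Agent.Helper99.LB.Gen

open Pool.Agent.Helper19.LB

open FBM

set_option linter.unusedSectionVars false

section Piece

variable {n k : ℕ} {Om : Type} [TopologicalSpace Om] [CompactSpace Om] [SecondCountableTopology Om]
  [MeasurableSpace Om] [BorelSpace Om] {nu : Measure Om} [IsProbabilityMeasure nu] {w : FD n k Om}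

omit [SecondCountableTopology Om] in
lemma integrable_mm {f : Om → ℝ} (hf : Continuous f) : Integrable f nu := by
  obtain ⟨M, hM⟩ := isCompact_univ.exists_bound_of_continuousOn hf.continuousOn
  exact Integrable.of_bound hf.aestronglyMeasurable M
    (Filter.Eventually.of_forall fun θ => hM θ (mem_univ _))

lemma cont_q (hw : Ok w nu) {X : E n → E n} (hX : ContDiff ℝ ∞ X) {u v : Om → E n} (hu : Continuous u)
    (hv : Continuous v) :
    Continuous fun p : Pt × Om => ⟪u p.2, fderiv ℝ X (pos w p.1 p.2) (v p.2)⟫ := by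
  have hf : Continuous (fderiv ℝ X) := hX.continuous_fderiv (by simp)
  have h2 : Continuous fun p : Pt × Om => fderiv ℝ X (pos w p.1 p.2) :=
    hf.comp (continuous_pos hw)
  exact (hu.comp continuous_snd).inner (h2.clm_apply (hv.comp continuous_snd))

lemma cont_ang (hw : Ok w nu) {X : E n → E n} (hX : ContDiff ℝ ∞ X) :
    Continuous fun p : Pt × Om => ang w X p.1 p.2 := by
  unfold ang
  exact continuous_finsetSum _ fun j _ => cont_q hw hX (continuous_th hw j) (continuous_th hw j)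

lemma cont_tst (hw : Ok w nu) {X : E n → E n} (hX : ContDiff ℝ ∞ X) {u : Om → E n} (hu : Continuous u) :
    Continuous fun p : Pt × Om => tst w X p.2 (u p.2) p.1 := by
  unfold tst
  exact (hX.continuous.comp (continuous_pos hw)).inner (hu.comp continuous_snd)

lemma meas_ang0 (hw : Ok w nu) {X : E n → E n} (hX : ContDiff ℝ ∞ X) :
    Measurable fun p : Pt × Om => ang w X p.1 p.2 := (cont_ang hw hX).measurable

lemma meas_tst0 (hw : Ok w nu) {X : E n → E n} (hX : ContDiff ℝ ∞ X) {u : Om → E n}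
    (hu : Continuous u) :
    Measurable fun p : Pt × Om => tst w X p.2 (u p.2) p.1 :=
  (cont_tst hw hX hu).measurable

lemma hoop_mm (hw : Ok w nu) {X : E n → E n} (hX : ContDiff ℝ ∞ X) {x : Pt} (hx : x.1 ≠ 0) :
    ∫ θ, ang w X x θ ∂nu = k / x.1 * ∫ θ, tst w X θ (Rh w θ) x ∂nu :=
  hw.hoop X hX x hx

variable (hw : Ok w nu)

include hw

lemma norm_pos_le {x : Pt} (hx : x ∈ disc) (θ : Om) : ‖pos w x θ‖ ≤ 1 := by
  have h1 := norm_pos_sq hw x θ
  have h2 := hx.2
  have h3 := norm_nonneg (pos w x θ)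
  nlinarith

lemma q_bound {X : E n → E n} {M : ℝ} (hM : ∀ x : E n, ‖x‖ ≤ 1 → ‖fderiv ℝ X x‖ ≤ M ∧ ‖X x‖ ≤ M)
    {x : Pt} (hx : x ∈ disc) (θ : Om) {u v : E n} (hu : ‖u‖ = 1) (hv : ‖v‖ = 1) :
    |⟪u, fderiv ℝ X (pos w x θ) v⟫| ≤ M := by
  have h0 := (hM _ (norm_pos_le hw hx θ)).1
  calc |⟪u, fderiv ℝ X (pos w x θ) v⟫| ≤ ‖u‖ * ‖fderiv ℝ X (pos w x θ) v‖ :=
        abs_real_inner_le_norm _ _
    _ ≤ 1 * (M * 1) := by
        rw [hu]
        refine mul_le_mul_of_nonneg_left ?_ zero_le_one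
        calc ‖fderiv ℝ X (pos w x θ) v‖ ≤ ‖fderiv ℝ X (pos w x θ)‖ * ‖v‖ :=
              ContinuousLinearMap.le_opNorm _ _
          _ ≤ M * 1 := by
              rw [hv]
              exact mul_le_mul_of_nonneg_right h0 zero_le_one
    _ = M := by ring

lemma ang_bound {X : E n → E n} {M : ℝ} (hM : ∀ x : E n, ‖x‖ ≤ 1 → ‖fderiv ℝ X x‖ ≤ M ∧ ‖X x‖ ≤ M)
    {x : Pt} (hx : x ∈ disc) (θ : Om) : |ang w X x θ| ≤ k * M := by
  unfold ang
  calc |∑ j, ⟪th w θ j, fderiv ℝ X (pos w x θ) (th w θ j)⟫|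
      ≤ ∑ j : Fin k, |⟪th w θ j, fderiv ℝ X (pos w x θ) (th w θ j)⟫| :=
        Finset.abs_sum_le_sum_abs _ _
    _ ≤ ∑ _j : Fin k, M := Finset.sum_le_sum fun j _ =>
        q_bound hw hM hx θ ((orthonormal_th hw θ).1 j) ((orthonormal_th hw θ).1 j)
    _ = k * M := by simp

lemma tst_bound {X : E n → E n} {M : ℝ} (hM : ∀ x : E n, ‖x‖ ≤ 1 → ‖fderiv ℝ X x‖ ≤ M ∧ ‖X x‖ ≤ M)
    {x : Pt} (hx : x ∈ disc) (θ : Om) {u : E n} (hu : ‖u‖ = 1) :
    |tst w X θ u x| ≤ M := by
  have h0 := (hM _ (norm_pos_le hw hx θ)).2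
  unfold tst
  calc |⟪X (pos w x θ), u⟫| ≤ ‖X (pos w x θ)‖ * ‖u‖ := abs_real_inner_le_norm _ _
    _ ≤ M := by rw [hu, mul_one]; exact h0

attribute [local irreducible] tst ang

lemma meas_ang {Ω : Type*} [MeasurableSpace Ω] {g : Ω → Pt}
    (hg : Measurable g) {X : E n → E n} (hX : ContDiff ℝ ∞ X) :
    Measurable fun p : Ω × Om => ang w X (g p.1) p.2 := by
  have hgm : Measurable fun p : Ω × Om => (g p.1, p.2) :=
    (hg.comp measurable_fst).prodMk measurable_snd
  exact (meas_ang0 hw hX).comp hgm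

lemma meas_tst {Ω : Type*} [MeasurableSpace Ω] {g : Ω → Pt}
    (hg : Measurable g) {X : E n → E n} (hX : ContDiff ℝ ∞ X) {u : Om → E n}
    (hu : Continuous u) :
    Measurable fun p : Ω × Om => tst w X p.2 (u p.2) (g p.1) := by
  have hgm : Measurable fun p : Ω × Om => (g p.1, p.2) :=
    (hg.comp measurable_fst).prodMk measurable_snd
  exact (meas_tst0 hw hX hu).comp hgm

set_option maxHeartbeats 400000 in
lemma piece (hk : 0 < k) {Ω : Type*} [MeasurableSpace Ω] (ν : Measure Ω) [IsFiniteMeasure ν] {g : Ω → Pt}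
    (hg : Measurable g) (hd : ∀ᵐ x ∂ν, g x ∈ disc) (hi : Integrable (fun x => 1 / (g x).1) ν)
    {X : E n → E n} (hX : ContDiff ℝ ∞ X) {P : Ω × Om → ℝ} (hP : Measurable P) {C : ℝ}
    (hC : ∀ᵐ x ∂ν, ∀ θ, |P (x, θ)| ≤ C) (κ : ℝ) :
    Integrable (fun θ => ∫ x, (P (x, θ) + κ * (tst w X θ (Rh w θ) (g x) / (g x).1)) ∂ν) nu ∧
    ∫ p, (P p + κ / k * ang w X (g p.1) p.2) ∂(ν.prod nu) =
      ∫ θ, (∫ x, (P (x, θ) + κ * (tst w X θ (Rh w θ) (g x) / (g x).1)) ∂ν) ∂nu := by
  obtain ⟨M, hM0, hM⟩ := exists_bound hX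
  have hang : Measurable fun p : Ω × Om => ang w X (g p.1) p.2 :=
    meas_ang hw hg hX
  have htst : Measurable fun p : Ω × Om => tst w X p.2 (Rh w p.2) (g p.1) :=
    meas_tst hw hg hX (continuous_Rh hw)
  have hd' : ∀ᵐ p ∂(ν.prod nu), g p.1 ∈ disc := Measure.quasiMeasurePreserving_fst.ae hd
  have hC' : ∀ᵐ p ∂(ν.prod nu), |P p| ≤ C := by
    filter_upwards [(Measure.quasiMeasurePreserving_fst (μ := ν) (ν := nu)).ae hC] with p hp
    exact hp p.2
  have iP : Integrable P (ν.prod nu) :=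
    Integrable.of_bound hP.aestronglyMeasurable C (by
      filter_upwards [hC'] with p hp
      exact hp)
  have iA : Integrable (fun p : Ω × Om => ang w X (g p.1) p.2) (ν.prod nu) := by
    refine Integrable.of_bound hang.aestronglyMeasurable (k * M) ?_
    filter_upwards [hd'] with p hp
    exact ang_bound hw hM hp p.2
  have iT : Integrable (fun p : Ω × Om => tst w X p.2 (Rh w p.2) (g p.1) / (g p.1).1)
      (ν.prod nu) := by
    have h1 : Integrable (fun p : Ω × Om => 1 / (g p.1).1) (ν.prod nu) :=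
      hi.comp_fst nu
    have h2 := h1.bdd_mul (c := M) htst.aestronglyMeasurable (by
      filter_upwards [hd'] with p hp
      exact tst_bound hw hM hp p.2 (norm_Rh hw p.2))
    refine h2.congr ?_
    filter_upwards with p
    ring
  have i1 := iP.add (iA.const_mul (κ / k))
  have i2 := iP.add (iT.const_mul κ)
  refine ⟨i2.integral_prod_right, ?_⟩
  have e1 : ∫ p, (P p + κ / k * ang w X (g p.1) p.2) ∂(ν.prod nu)
      = ∫ x, ∫ θ, (P (x, θ) + κ / k * ang w X (g x) θ) ∂nu ∂ν := integral_prod _ i1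
  have e2 : ∫ θ, (∫ x, (P (x, θ) + κ * (tst w X θ (Rh w θ) (g x) / (g x).1)) ∂ν) ∂nu
      = ∫ x, ∫ θ, (P (x, θ) + κ * (tst w X θ (Rh w θ) (g x) / (g x).1)) ∂nu ∂ν :=
    (integral_integral_swap i2).symm
  rw [e1, e2]
  refine integral_congr_ae ?_
  filter_upwards [hd, hC] with x hx hCx
  have hx0 : (g x).1 ≠ 0 := hx.1.ne'
  have j0 : Integrable (fun θ => P (x, θ)) nu :=
    Integrable.of_bound (hP.comp measurable_prodMk_left).aestronglyMeasurable C
      (Filter.Eventually.of_forall fun θ => hCx θ)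
  have j1 : Integrable (fun θ => ang w X (g x) θ) nu :=
    integrable_mm ((cont_ang hw hX).comp (Continuous.prodMk_right (g x)))
  have j2 : Integrable (fun θ => tst w X θ (Rh w θ) (g x)) nu :=
    integrable_mm ((cont_tst hw hX (continuous_Rh hw)).comp (Continuous.prodMk_right (g x)))
  have j3 : Integrable (fun θ => tst w X θ (Rh w θ) (g x) / (g x).1) nu := j2.div_const _
  rw [integral_add j0 (j1.const_mul _), integral_add j0 (j3.const_mul _), integral_const_mul,
    integral_const_mul, integral_div, hoop_mm hw hX hx0]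
  have hk' : (k : ℝ) ≠ 0 := by positivity
  field_simp

end Piece

end Pool.Agent.Helper99.LB.Gen
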