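import Pool.Agent.Helper13.LB.Frames
import Pool.Agent.Helper10.LB.Torus

/-!
G3: reduction of rotationally symmetric data to the half plane.
-/

open MeasureTheory Set Real Module
open scoped ContDiff RealInnerProductSpace

namespace Pool.Agent.Helper99.LB

open Pool.Agent.Helper19.LB

open FBM

section Cont

variable {n k : ℕ} (w : Fin k ⊕ Fin k ⊕ Unit → E n)

lemma continuous_rh (j : Fin k) : Continuous fun θ : Fin k → ℝ => rh w θ j := by
  unfold rh; fun_prop

lemma continuous_th (j : Fin k) : Continuous fun θ : Fin k → ℝ => th w θ j := by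
  unfold th; fun_prop

lemma continuous_Rh : Continuous fun θ : Fin k → ℝ => Rh w θ := by
  unfold Rh
  have h : Continuous fun θ : Fin k → ℝ => ∑ j, rh w θ j :=
    continuous_finsetSum _ fun j _ => continuous_rh w j
  exact h.const_smul ((√(k : ℝ))⁻¹)

lemma continuous_pos : Continuous fun p : Pt × (Fin k → ℝ) => pos w p.1 p.2 := by
  unfold pos
  have h1 : Continuous fun p : Pt × (Fin k → ℝ) => Rh w p.2 := (continuous_Rh w).comp continuous_snd
  fun_prop

lemma continuous_th' : Continuous fun θ : Fin k → ℝ => th w θ :=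
  continuous_pi fun j => continuous_th w j

end Cont

/-- The frame divergence. -/
noncomputable def DX {n k : ℕ} (X : E n → E n) (p : E n × (Fin k → E n)) : ℝ :=
  ∑ i, ⟪p.2 i, fderiv ℝ X p.1 (p.2 i)⟫

lemma continuous_DX {n k : ℕ} {X : E n → E n} (hX : ContDiff ℝ ∞ X) :
    Continuous (DX (k := k) X) := by
  have hf : Continuous (fderiv ℝ X) := hX.continuous_fderiv (by simp)
  unfold DX
  refine continuous_finsetSum _ fun i _ => ?_
  have h1 : Continuous fun p : E n × (Fin k → E n) => p.2 i :=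
    (continuous_apply i).comp continuous_snd
  have h2 : Continuous fun p : E n × (Fin k → E n) => fderiv ℝ X p.1 := hf.comp continuous_fst
  exact h1.inner (h2.clm_apply h1)

lemma exists_bound {n : ℕ} {X : E n → E n} (hX : ContDiff ℝ ∞ X) :
    ∃ M : ℝ, 0 ≤ M ∧ ∀ x : E n, ‖x‖ ≤ 1 → ‖fderiv ℝ X x‖ ≤ M ∧ ‖X x‖ ≤ M := by
  have hf : Continuous (fderiv ℝ X) := hX.continuous_fderiv (by simp)
  have hc : IsCompact (Metric.closedBall (0 : E n) 1) := isCompact_closedBall _ _
  obtain ⟨M1, h1⟩ := hc.exists_bound_of_continuousOn hf.continuousOn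
  obtain ⟨M2, h2⟩ := hc.exists_bound_of_continuousOn hX.continuous.continuousOn
  refine ⟨max 0 (max M1 M2), le_max_left _ _, fun x hx => ⟨?_, ?_⟩⟩
  · exact (h1 x (by simpa using hx)).trans ((le_max_left _ _).trans (le_max_right _ _))
  · exact (h2 x (by simpa using hx)).trans ((le_max_right _ _).trans (le_max_right _ _))

/-- The points of the space of frames which carry a datum. -/
def Fr {n k : ℕ} (p : E n × (Fin k → E n)) : Prop := ‖p.1‖ ≤ 1 ∧ Orthonormal ℝ p.2

lemma DX_bound {n k : ℕ} {X : E n → E n} {M : ℝ}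
    (hM : ∀ x : E n, ‖x‖ ≤ 1 → ‖fderiv ℝ X x‖ ≤ M ∧ ‖X x‖ ≤ M)
    {p : E n × (Fin k → E n)} (hp : Fr p) : ‖DX X p‖ ≤ k * M := by
  unfold DX
  calc ‖∑ i, ⟪p.2 i, fderiv ℝ X p.1 (p.2 i)⟫‖ ≤ ∑ i : Fin k, ‖⟪p.2 i, fderiv ℝ X p.1 (p.2 i)⟫‖ :=
        norm_sum_le _ _
    _ ≤ ∑ _i : Fin k, M := by
        refine Finset.sum_le_sum fun i _ => ?_
        have h1 := hp.2.norm_eq_one i
        calc ‖⟪p.2 i, fderiv ℝ X p.1 (p.2 i)⟫‖ ≤ ‖p.2 i‖ * ‖fderiv ℝ X p.1 (p.2 i)‖ :=
              norm_inner_le_norm _ _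
          _ ≤ 1 * (M * 1) := by
              rw [h1]
              refine mul_le_mul_of_nonneg_left ?_ zero_le_one
              calc ‖fderiv ℝ X p.1 (p.2 i)‖ ≤ ‖fderiv ℝ X p.1‖ * ‖p.2 i‖ :=
                    ContinuousLinearMap.le_opNorm _ _
                _ ≤ M * 1 := by
                    rw [h1]
                    exact mul_le_mul_of_nonneg_right (hM p.1 hp.1).1 zero_le_one
          _ = M := by ring
    _ = k * M := by simp

/-! ### Frames -/

lemma sum_update' {ι α : Type*} [Fintype ι] [DecidableEq ι] (g : α → ℝ) (v : ι → α) (i : ι)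
    (a : α) : ∑ j, g (Function.update v i a j) = ∑ j, g (v j) - g (v i) + g a := by
  have h1 : ∀ j, g (Function.update v i a j) = Function.update (fun j => g (v j)) i (g a) j := by
    intro j
    by_cases h : j = i
    · subst h; simp
    · simp [h]
  simp only [h1]
  rw [Finset.sum_update_of_mem (Finset.mem_univ i)]
  have h2 : ∑ j, g (v j) = g (v i) + ∑ j ∈ Finset.univ \ {i}, g (v j) := by
    rw [Finset.sum_sdiff_eq_sub (by simp)]
    simp
  rw [h2]
  ring

lemma orthonormal_update {ι : Type*} [DecidableEq ι] {n : ℕ} {v : ι → E n} (hv : Orthonormal ℝ v)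
    (i : ι) {a : E n} (ha : ‖a‖ = 1) (h : ∀ j, j ≠ i → ⟪a, v j⟫ = 0) :
    Orthonormal ℝ (Function.update v i a) := by
  constructor
  · intro j
    by_cases hj : j = i
    · subst hj; simpa using ha
    · simpa [hj] using hv.1 j
  · intro j l hjl
    by_cases hj : j = i
    · subst hj
      have hl : l ≠ j := fun e => hjl e.symm
      simpa [hl] using h l hl
    · by_cases hl : l = i
      · subst hl
        have := h j hj
        rw [real_inner_comm] at this
        simpa [hj] using this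
      · simpa [hj, hl] using hv.2 hjl

section Frames

variable {n k : ℕ} {w : Fin k ⊕ Fin k ⊕ Unit → E n} (hw : Orthonormal ℝ w) (hk : 0 < k)

include hw hk

lemma norm_Rh (θ : Fin k → ℝ) : ‖Rh w θ‖ = 1 := by
  have := (orthonormal_all w hk hw θ).1 (Sum.inl true)
  simpa using this

lemma norm_ax' (θ : Fin k → ℝ) : ‖ax w‖ = 1 := by
  have := (orthonormal_all w hk hw θ).1 (Sum.inl false)
  simpa using this

lemma inner_Rh_ax (θ : Fin k → ℝ) : ⟪Rh w θ, ax w⟫ = 0 := by
  have := (orthonormal_all w hk hw θ).2 (i := Sum.inl true) (j := Sum.inl false) (by simp)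
  simpa using this

lemma inner_Rh_th (θ : Fin k → ℝ) (j : Fin k) : ⟪Rh w θ, th w θ j⟫ = 0 := by
  have := (orthonormal_all w hk hw θ).2 (i := Sum.inl true) (j := Sum.inr j) (by simp)
  simpa using this

lemma inner_ax_th (θ : Fin k → ℝ) (j : Fin k) : ⟪ax w, th w θ j⟫ = 0 := by
  have := (orthonormal_all w hk hw θ).2 (i := Sum.inl false) (j := Sum.inr j) (by simp)
  simpa using this

lemma norm_pos_sq (x : Pt) (θ : Fin k → ℝ) : ‖pos w x θ‖ ^ 2 = x.1 ^ 2 + x.2 ^ 2 := by
  have h1 := norm_Rh hw hk θ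
  have h2 := norm_ax' hw hk θ
  have h3 := inner_Rh_ax hw hk θ
  unfold pos
  rw [norm_add_sq_real, norm_smul, norm_smul, h1, h2, inner_smul_left, inner_smul_right, h3]
  simp

lemma inner_ax_pos (x : Pt) (θ : Fin k → ℝ) : ⟪ax w, pos w x θ⟫ = x.2 := by
  have h2 := norm_ax' hw hk θ
  have h3 := inner_Rh_ax hw hk θ
  rw [real_inner_comm] at h3
  unfold pos
  rw [inner_add_right, inner_smul_right, inner_smul_right, h3, real_inner_self_eq_norm_sq, h2]
  simp

omit hw hk in
/-- The planes of type (a). -/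
noncomputable def Va (w : Fin k ⊕ Fin k ⊕ Unit → E n) (θ : Fin k → ℝ) (i : Fin k) : Fin k → E n :=
  Function.update (Function.update (th w θ) i (Rh w θ)) (finRotate k i) (ax w)

omit hw hk in
/-- The planes of type (b). -/
noncomputable def Vb (w : Fin k ⊕ Fin k ⊕ Unit → E n) (τ : Pt) (θ : Fin k → ℝ) (i : Fin k) :
    Fin k → E n :=
  Function.update (th w θ) i (τ.1 • Rh w θ + τ.2 • ax w)

omit hw hk in
lemma rot_ne (h2 : 2 ≤ k) (i : Fin k) : finRotate k i ≠ i := by
  obtain ⟨m, rfl⟩ : ∃ m, k = m + 2 := ⟨k - 2, by omega⟩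
  rw [finRotate_apply]
  intro h
  simp at h

lemma orthonormal_Va (h2 : 2 ≤ k) (θ : Fin k → ℝ) (i : Fin k) : Orthonormal ℝ (Va w θ i) := by
  unfold Va
  refine orthonormal_update (orthonormal_update (orthonormal_th w hw θ) i (norm_Rh hw hk θ)
    fun j _ => inner_Rh_th hw hk θ j) _ (norm_ax' hw hk θ) fun j hj => ?_
  by_cases hji : j = i
  · subst hji
    rw [Function.update_self, real_inner_comm]
    exact inner_Rh_ax hw hk θ
  · rw [Function.update_of_ne hji]
    exact inner_ax_th hw hk θ j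

lemma orthonormal_Vb {τ : Pt} (hτ : τ.1 ^ 2 + τ.2 ^ 2 = 1) (θ : Fin k → ℝ) (i : Fin k) :
    Orthonormal ℝ (Vb w τ θ i) := by
  unfold Vb
  refine orthonormal_update (orthonormal_th w hw θ) i ?_ fun j _ => ?_
  · have h := norm_pos_sq hw hk τ θ
    unfold pos at h
    rw [hτ] at h
    have h0 := norm_nonneg (τ.1 • Rh w θ + τ.2 • ax w)
    nlinarith
  · rw [inner_add_left, inner_smul_left, inner_smul_left, inner_Rh_th hw hk, inner_ax_th hw hk]
    simp

end Frames

/-! ### Test functions on the half plane -/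

section Test

variable {n k : ℕ} (w : Fin k ⊕ Fin k ⊕ Unit → E n)

/-- The component of `X` in the direction `u` as a function on the half plane. -/
noncomputable def tst (X : E n → E n) (θ : Fin k → ℝ) (u : E n) (x : Pt) : ℝ :=
  ⟪X (pos w x θ), u⟫

lemma contDiff_pos (θ : Fin k → ℝ) : ContDiff ℝ ∞ fun x : Pt => pos w x θ := by
  unfold pos
  exact (contDiff_fst.smul contDiff_const).add (contDiff_snd.smul contDiff_const)

lemma contDiff_tst {X : E n → E n} (hX : ContDiff ℝ ∞ X) (θ : Fin k → ℝ) (u : E n) :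
    ContDiff ℝ ∞ (tst w X θ u) := by
  unfold tst
  exact (hX.comp (contDiff_pos w θ)).inner ℝ contDiff_const

lemma fderiv_tst {X : E n → E n} (hX : ContDiff ℝ ∞ X) (θ : Fin k → ℝ) (u : E n) (x v : Pt) :
    fderiv ℝ (tst w X θ u) x v
      = ⟪fderiv ℝ X (pos w x θ) (v.1 • Rh w θ + v.2 • ax w), u⟫ := by
  have hXd : HasFDerivAt X (fderiv ℝ X (pos w x θ)) (pos w x θ) :=
    (hX.differentiable (by simp)).differentiableAt.hasFDerivAt
  have hp : HasFDerivAt (fun x : Pt => pos w x θ)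
      ((ContinuousLinearMap.fst ℝ ℝ ℝ).smulRight (Rh w θ)
        + (ContinuousLinearMap.snd ℝ ℝ ℝ).smulRight (ax w)) x := by
    unfold pos
    exact (hasFDerivAt_fst.smul_const _).add (hasFDerivAt_snd.smul_const _)
  have h := (hXd.comp x hp).inner ℝ (hasFDerivAt_const u x)
  have h' : HasFDerivAt (tst w X θ u) _ x := h
  rw [h'.fderiv]
  simp

lemma dr_tst {X : E n → E n} (hX : ContDiff ℝ ∞ X) (θ : Fin k → ℝ) (u : E n) (x : Pt) :
    dr (tst w X θ u) x = ⟪u, fderiv ℝ X (pos w x θ) (Rh w θ)⟫ := by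
  rw [dr, fderiv_tst w hX, real_inner_comm]
  simp

lemma dz_tst {X : E n → E n} (hX : ContDiff ℝ ∞ X) (θ : Fin k → ℝ) (u : E n) (x : Pt) :
    dz (tst w X θ u) x = ⟪u, fderiv ℝ X (pos w x θ) (ax w)⟫ := by
  rw [dz, fderiv_tst w hX, real_inner_comm]
  simp

/-- The sum of the angular derivatives. -/
noncomputable def ang (X : E n → E n) (x : Pt) (θ : Fin k → ℝ) : ℝ :=
  ∑ j, ⟪th w θ j, fderiv ℝ X (pos w x θ) (th w θ j)⟫

lemma DX_c (X : E n → E n) (x : Pt) (θ : Fin k → ℝ) :
    DX X (pos w x θ, th w θ) = ang w X x θ := rfl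

lemma DX_b {X : E n → E n} (hX : ContDiff ℝ ∞ X) (x τ : Pt) (θ : Fin k → ℝ) :
    ∑ i, DX X (pos w x θ, Vb w τ θ i) =
      k * (τ.1 ^ 2 * dr (tst w X θ (Rh w θ)) x
        + τ.1 * τ.2 * (dz (tst w X θ (Rh w θ)) x + dr (tst w X θ (ax w)) x)
        + τ.2 ^ 2 * dz (tst w X θ (ax w)) x) + (k - 1) * ang w X x θ := by
  have h1 : ∀ i : Fin k, DX X (pos w x θ, Vb w τ θ i) =
      ang w X x θ - ⟪th w θ i, fderiv ℝ X (pos w x θ) (th w θ i)⟫ +
        (τ.1 ^ 2 * dr (tst w X θ (Rh w θ)) x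
        + τ.1 * τ.2 * (dz (tst w X θ (Rh w θ)) x + dr (tst w X θ (ax w)) x)
        + τ.2 ^ 2 * dz (tst w X θ (ax w)) x) := by
    intro i
    rw [dr_tst w hX, dz_tst w hX, dr_tst w hX, dz_tst w hX]
    simp only [DX, Vb]
    rw [sum_update' (fun v => ⟪v, fderiv ℝ X (pos w x θ) v⟫) (th w θ) i]
    rw [map_add, map_smul, map_smul, inner_add_left, inner_smul_left, inner_smul_left,
      inner_add_right, inner_add_right, inner_smul_right, inner_smul_right, inner_smul_right,
      inner_smul_right]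
    simp only [ang, RCLike.conj_to_real]
    ring
  simp only [h1]
  rw [Finset.sum_add_distrib, Finset.sum_sub_distrib]
  simp only [Finset.sum_const, Finset.card_univ, Fintype.card_fin, nsmul_eq_mul]
  have h2 : ∑ i, ⟪th w θ i, fderiv ℝ X (pos w x θ) (th w θ i)⟫ = ang w X x θ := rfl
  rw [h2]
  ring

lemma DX_a (h2 : 2 ≤ k) {X : E n → E n} (hX : ContDiff ℝ ∞ X) (x : Pt) (θ : Fin k → ℝ) :
    ∑ i, DX X (pos w x θ, Va w θ i) =
      k * (dr (tst w X θ (Rh w θ)) x + dz (tst w X θ (ax w)) x) + (k - 2) * ang w X x θ := by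
  have h1 : ∀ i : Fin k, DX X (pos w x θ, Va w θ i) =
      ang w X x θ - ⟪th w θ i, fderiv ℝ X (pos w x θ) (th w θ i)⟫
        - ⟪th w θ (finRotate k i), fderiv ℝ X (pos w x θ) (th w θ (finRotate k i))⟫ +
        (dr (tst w X θ (Rh w θ)) x + dz (tst w X θ (ax w)) x) := by
    intro i
    rw [dr_tst w hX, dz_tst w hX]
    simp only [DX, Va]
    rw [sum_update' (fun v => ⟪v, fderiv ℝ X (pos w x θ) v⟫),
      sum_update' (fun v => ⟪v, fderiv ℝ X (pos w x θ) v⟫) (th w θ) i,
      Function.update_of_ne (rot_ne h2 i)]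
    simp only [ang]
    ring
  simp only [h1]
  rw [Finset.sum_add_distrib, Finset.sum_sub_distrib, Finset.sum_sub_distrib]
  simp only [Finset.sum_const, Finset.card_univ, Fintype.card_fin, nsmul_eq_mul]
  have h3 : ∑ i, ⟪th w θ i, fderiv ℝ X (pos w x θ) (th w θ i)⟫ = ang w X x θ := rfl
  have h4 : ∑ i, ⟪th w θ (finRotate k i), fderiv ℝ X (pos w x θ) (th w θ (finRotate k i))⟫
      = ang w X x θ := by
    rw [← h3]
    exact Equiv.sum_comp (finRotate k) (fun j => ⟪th w θ j, fderiv ℝ X (pos w x θ) (th w θ j)⟫)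
  rw [h3, h4]
  ring

end Test

end Pool.Agent.Helper99.LB
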