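import Pool.Agent.Helper99.LB.Red

/-!
G3: reduction of rotationally symmetric data to the half plane, measures.
-/

open MeasureTheory Set Real Module
open scoped ContDiff RealInnerProductSpace

namespace Pool.Agent.Helper99.LB

open Pool.Agent.Helper19.LB

open FBM

/-- The uniform probability measure on the box of angles. -/
noncomputable def mm (k : ℕ) : Measure (Fin k → ℝ) :=
  (ENNReal.ofReal ((2 * π) ^ k))⁻¹ • (volume.restrict (box k))

lemma two_pi_pow_pos (k : ℕ) : 0 < (2 * π) ^ k := pow_pos (by positivity) _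

instance isProb_mm (k : ℕ) : IsProbabilityMeasure (mm k) := by
  constructor
  rw [mm, Measure.smul_apply, Measure.restrict_apply MeasurableSet.univ, univ_inter, box,
    Real.volume_Icc_pi]
  simp only [Pi.zero_apply, sub_zero, Finset.prod_const, Finset.card_univ, Fintype.card_fin,
    smul_eq_mul]
  rw [← ENNReal.ofReal_pow (by positivity)]
  apply ENNReal.inv_mul_cancel
  · simpa using two_pi_pow_pos k
  · exact ENNReal.ofReal_ne_top

lemma integral_mm (k : ℕ) (f : (Fin k → ℝ) → ℝ) :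
    ∫ θ, f θ ∂(mm k) = ((2 * π) ^ k)⁻¹ * ∫ θ in box k, f θ := by
  rw [mm, integral_smul_measure, ENNReal.toReal_inv, ENNReal.toReal_ofReal (two_pi_pow_pos k).le,
    smul_eq_mul]

lemma integrable_mm {k : ℕ} {f : (Fin k → ℝ) → ℝ} (hf : Continuous f) : Integrable f (mm k) := by
  have h1 : IntegrableOn f (box k) :=
    hf.continuousOn.integrableOn_compact (by unfold box; exact isCompact_Icc)
  exact h1.smul_measure (by simpa using two_pi_pow_pos k)

section Piece

variable {n k : ℕ} {w : Fin k ⊕ Fin k ⊕ Unit → E n}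

lemma cont_q {X : E n → E n} (hX : ContDiff ℝ ∞ X) {u v : (Fin k → ℝ) → E n} (hu : Continuous u)
    (hv : Continuous v) :
    Continuous fun p : Pt × (Fin k → ℝ) => ⟪u p.2, fderiv ℝ X (pos w p.1 p.2) (v p.2)⟫ := by
  have hf : Continuous (fderiv ℝ X) := hX.continuous_fderiv (by simp)
  have h2 : Continuous fun p : Pt × (Fin k → ℝ) => fderiv ℝ X (pos w p.1 p.2) :=
    hf.comp (continuous_pos w)
  exact (hu.comp continuous_snd).inner (h2.clm_apply (hv.comp continuous_snd))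

lemma cont_ang {X : E n → E n} (hX : ContDiff ℝ ∞ X) :
    Continuous fun p : Pt × (Fin k → ℝ) => ang w X p.1 p.2 := by
  unfold ang
  exact continuous_finsetSum _ fun j _ => cont_q hX (continuous_th w j) (continuous_th w j)

lemma cont_tst {X : E n → E n} (hX : ContDiff ℝ ∞ X) {u : (Fin k → ℝ) → E n} (hu : Continuous u) :
    Continuous fun p : Pt × (Fin k → ℝ) => tst w X p.2 (u p.2) p.1 := by
  unfold tst
  exact (hX.continuous.comp (continuous_pos w)).inner (hu.comp continuous_snd)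

lemma meas_ang0 {X : E n → E n} (hX : ContDiff ℝ ∞ X) :
    Measurable fun p : Pt × (Fin k → ℝ) => ang w X p.1 p.2 := (cont_ang (w := w) hX).measurable

lemma meas_tst0 {X : E n → E n} (hX : ContDiff ℝ ∞ X) {u : (Fin k → ℝ) → E n}
    (hu : Continuous u) :
    Measurable fun p : Pt × (Fin k → ℝ) => tst w X p.2 (u p.2) p.1 :=
  (cont_tst (w := w) hX hu).measurable

lemma hoop_mm (hk : 0 < k) {X : E n → E n} (hX : ContDiff ℝ ∞ X) {x : Pt} (hx : x.1 ≠ 0) :
    ∫ θ, ang w X x θ ∂(mm k) = k / x.1 * ∫ θ, tst w X θ (Rh w θ) x ∂(mm k) := by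
  rw [integral_mm, integral_mm]
  have := hoop w hk hX hx
  unfold ang tst
  rw [this]
  ring

variable (hw : Orthonormal ℝ w) (hk : 0 < k)

include hw hk

lemma norm_pos_le {x : Pt} (hx : x ∈ disc) (θ : Fin k → ℝ) : ‖pos w x θ‖ ≤ 1 := by
  have h1 := norm_pos_sq hw hk x θ
  have h2 := hx.2
  have h3 := norm_nonneg (pos w x θ)
  nlinarith

lemma q_bound {X : E n → E n} {M : ℝ} (hM : ∀ x : E n, ‖x‖ ≤ 1 → ‖fderiv ℝ X x‖ ≤ M ∧ ‖X x‖ ≤ M)
    {x : Pt} (hx : x ∈ disc) (θ : Fin k → ℝ) {u v : E n} (hu : ‖u‖ = 1) (hv : ‖v‖ = 1) :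
    |⟪u, fderiv ℝ X (pos w x θ) v⟫| ≤ M := by
  have h0 := (hM _ (norm_pos_le hw hk hx θ)).1
  calc |⟪u, fderiv ℝ X (pos w x θ) v⟫| ≤ ‖u‖ * ‖fderiv ℝ X (pos w x θ) v‖ :=
        abs_real_inner_le_norm _ _
    _ ≤ 1 * (M * 1) := by
        rw [hu]
        refine mul_le_mul_of_nonneg_left ?_ zero_le_one
        calc ‖fderiv ℝ X (pos w x θ) v‖ ≤ ‖fderiv ℝ X (pos w x θ)‖ * ‖v‖ :=
              ContinuousLinearMap.le_opNorm _ _
          _ ≤ M * 1 := by
              rw [hv]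
              exact mul_le_mul_of_nonneg_right h0 zero_le_one
    _ = M := by ring

lemma ang_bound {X : E n → E n} {M : ℝ} (hM : ∀ x : E n, ‖x‖ ≤ 1 → ‖fderiv ℝ X x‖ ≤ M ∧ ‖X x‖ ≤ M)
    {x : Pt} (hx : x ∈ disc) (θ : Fin k → ℝ) : |ang w X x θ| ≤ k * M := by
  unfold ang
  calc |∑ j, ⟪th w θ j, fderiv ℝ X (pos w x θ) (th w θ j)⟫|
      ≤ ∑ j : Fin k, |⟪th w θ j, fderiv ℝ X (pos w x θ) (th w θ j)⟫| :=
        Finset.abs_sum_le_sum_abs _ _
    _ ≤ ∑ _j : Fin k, M := Finset.sum_le_sum fun j _ =>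
        q_bound hw hk hM hx θ ((orthonormal_th w hw θ).1 j) ((orthonormal_th w hw θ).1 j)
    _ = k * M := by simp

lemma tst_bound {X : E n → E n} {M : ℝ} (hM : ∀ x : E n, ‖x‖ ≤ 1 → ‖fderiv ℝ X x‖ ≤ M ∧ ‖X x‖ ≤ M)
    {x : Pt} (hx : x ∈ disc) (θ : Fin k → ℝ) {u : E n} (hu : ‖u‖ = 1) :
    |tst w X θ u x| ≤ M := by
  have h0 := (hM _ (norm_pos_le hw hk hx θ)).2
  unfold tst
  calc |⟪X (pos w x θ), u⟫| ≤ ‖X (pos w x θ)‖ * ‖u‖ := abs_real_inner_le_norm _ _
    _ ≤ M := by rw [hu, mul_one]; exact h0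

attribute [local irreducible] tst ang

omit hw hk in
lemma meas_ang {Ω : Type*} [MeasurableSpace Ω] {g : Ω → Pt}
    (hg : Measurable g) {X : E n → E n} (hX : ContDiff ℝ ∞ X) :
    Measurable fun p : Ω × (Fin k → ℝ) => ang w X (g p.1) p.2 := by
  have hgm : Measurable fun p : Ω × (Fin k → ℝ) => (g p.1, p.2) :=
    (hg.comp measurable_fst).prodMk measurable_snd
  exact (meas_ang0 (w := w) hX).comp hgm

omit hw hk in
lemma meas_tst {Ω : Type*} [MeasurableSpace Ω] {g : Ω → Pt}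
    (hg : Measurable g) {X : E n → E n} (hX : ContDiff ℝ ∞ X) {u : (Fin k → ℝ) → E n}
    (hu : Continuous u) :
    Measurable fun p : Ω × (Fin k → ℝ) => tst w X p.2 (u p.2) (g p.1) := by
  have hgm : Measurable fun p : Ω × (Fin k → ℝ) => (g p.1, p.2) :=
    (hg.comp measurable_fst).prodMk measurable_snd
  exact (meas_tst0 (w := w) hX hu).comp hgm

set_option maxHeartbeats 400000 in
lemma piece {Ω : Type*} [MeasurableSpace Ω] (ν : Measure Ω) [IsFiniteMeasure ν] {g : Ω → Pt}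
    (hg : Measurable g) (hd : ∀ᵐ x ∂ν, g x ∈ disc) (hi : Integrable (fun x => 1 / (g x).1) ν)
    {X : E n → E n} (hX : ContDiff ℝ ∞ X) {P : Ω × (Fin k → ℝ) → ℝ} (hP : Measurable P) {C : ℝ}
    (hC : ∀ᵐ x ∂ν, ∀ θ, |P (x, θ)| ≤ C) (κ : ℝ) :
    Integrable (fun θ => ∫ x, (P (x, θ) + κ * (tst w X θ (Rh w θ) (g x) / (g x).1)) ∂ν) (mm k) ∧
    ∫ p, (P p + κ / k * ang w X (g p.1) p.2) ∂(ν.prod (mm k)) =
      ∫ θ, (∫ x, (P (x, θ) + κ * (tst w X θ (Rh w θ) (g x) / (g x).1)) ∂ν) ∂(mm k) := by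
  obtain ⟨M, hM0, hM⟩ := exists_bound hX
  have hang : Measurable fun p : Ω × (Fin k → ℝ) => ang w X (g p.1) p.2 :=
    meas_ang (w := w) hg hX
  have htst : Measurable fun p : Ω × (Fin k → ℝ) => tst w X p.2 (Rh w p.2) (g p.1) :=
    meas_tst (w := w) hg hX (continuous_Rh w)
  have hd' : ∀ᵐ p ∂(ν.prod (mm k)), g p.1 ∈ disc := Measure.quasiMeasurePreserving_fst.ae hd
  have hC' : ∀ᵐ p ∂(ν.prod (mm k)), |P p| ≤ C := by
    filter_upwards [(Measure.quasiMeasurePreserving_fst (μ := ν) (ν := mm k)).ae hC] with p hp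
    exact hp p.2
  have iP : Integrable P (ν.prod (mm k)) :=
    Integrable.of_bound hP.aestronglyMeasurable C (by
      filter_upwards [hC'] with p hp
      exact hp)
  have iA : Integrable (fun p : Ω × (Fin k → ℝ) => ang w X (g p.1) p.2) (ν.prod (mm k)) := by
    refine Integrable.of_bound hang.aestronglyMeasurable (k * M) ?_
    filter_upwards [hd'] with p hp
    exact ang_bound hw hk hM hp p.2
  have iT : Integrable (fun p : Ω × (Fin k → ℝ) => tst w X p.2 (Rh w p.2) (g p.1) / (g p.1).1)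
      (ν.prod (mm k)) := by
    have h1 : Integrable (fun p : Ω × (Fin k → ℝ) => 1 / (g p.1).1) (ν.prod (mm k)) :=
      hi.comp_fst (mm k)
    have h2 := h1.bdd_mul (c := M) htst.aestronglyMeasurable (by
      filter_upwards [hd'] with p hp
      exact tst_bound hw hk hM hp p.2 (norm_Rh hw hk p.2))
    refine h2.congr ?_
    filter_upwards with p
    ring
  have i1 := iP.add (iA.const_mul (κ / k))
  have i2 := iP.add (iT.const_mul κ)
  refine ⟨i2.integral_prod_right, ?_⟩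
  have e1 : ∫ p, (P p + κ / k * ang w X (g p.1) p.2) ∂(ν.prod (mm k))
      = ∫ x, ∫ θ, (P (x, θ) + κ / k * ang w X (g x) θ) ∂(mm k) ∂ν := integral_prod _ i1
  have e2 : ∫ θ, (∫ x, (P (x, θ) + κ * (tst w X θ (Rh w θ) (g x) / (g x).1)) ∂ν) ∂(mm k)
      = ∫ x, ∫ θ, (P (x, θ) + κ * (tst w X θ (Rh w θ) (g x) / (g x).1)) ∂(mm k) ∂ν :=
    (integral_integral_swap i2).symm
  rw [e1, e2]
  refine integral_congr_ae ?_
  filter_upwards [hd, hC] with x hx hCx
  have hx0 : (g x).1 ≠ 0 := hx.1.ne'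
  have j0 : Integrable (fun θ => P (x, θ)) (mm k) :=
    Integrable.of_bound (hP.comp measurable_prodMk_left).aestronglyMeasurable C
      (Filter.Eventually.of_forall fun θ => hCx θ)
  have j1 : Integrable (fun θ => ang w X (g x) θ) (mm k) :=
    integrable_mm ((cont_ang (w := w) hX).comp (Continuous.prodMk_right (g x)))
  have j2 : Integrable (fun θ => tst w X θ (Rh w θ) (g x)) (mm k) :=
    integrable_mm ((cont_tst (w := w) hX (continuous_Rh w)).comp (Continuous.prodMk_right (g x)))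
  have j3 : Integrable (fun θ => tst w X θ (Rh w θ) (g x) / (g x).1) (mm k) := j2.div_const _
  rw [integral_add j0 (j1.const_mul _), integral_add j0 (j3.const_mul _), integral_const_mul,
    integral_const_mul, integral_div, hoop_mm hk hX hx0]
  have hk' : (k : ℝ) ≠ 0 := by positivity
  field_simp

end Piece

end Pool.Agent.Helper99.LB
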