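import Pool.Agent.Helper99.LB.Red2

/-!
G3: reduction of rotationally symmetric data to the half plane, the datum.
-/

open MeasureTheory Set Real Module
open scoped ContDiff RealInnerProductSpace

namespace Pool.Agent.Helper99.LB

open Pool.Agent.Helper19.LB

open FBM

/-- The uniform probability measure on the indices. -/
noncomputable def cnt (k : ℕ) : Measure (Fin k) := (k : ENNReal)⁻¹ • Measure.count

lemma isProb_cnt {k : ℕ} (hk : 0 < k) : IsProbabilityMeasure (cnt k) := by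
  constructor
  rw [cnt, Measure.smul_apply, Measure.count_univ, smul_eq_mul]
  have h1 : ENat.card (Fin k) = k := by simp
  rw [h1]
  apply ENNReal.inv_mul_cancel
  · simpa using hk.ne'
  · simp

lemma integral_cnt {k : ℕ} (f : Fin k → ℝ) : ∫ i, f i ∂(cnt k) = (k : ℝ)⁻¹ * ∑ i, f i := by
  rw [cnt, integral_smul_measure, integral_count]
  simp

section Gen

variable {n k : ℕ}

lemma ae_Fr_map {Ω : Type*} [MeasurableSpace Ω] {ν : Measure Ω}
    {Φ : Ω → E n × (Fin k → E n)} (hΦ : Measurable Φ) (h : ∀ᵐ z ∂ν, Fr (Φ z)) :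
    ∀ᵐ p ∂(ν.map Φ), Fr p := by
  have hm : MeasurableSet {p : E n × (Fin k → E n) | Fr p} := by
    have hc : IsClosed {p : E n × (Fin k → E n) | Fr p} := by
      have h1 : IsClosed {p : E n × (Fin k → E n) | ‖p.1‖ ≤ 1} :=
        isClosed_le (continuous_norm.comp continuous_fst) continuous_const
      have h2 : IsClosed {p : E n × (Fin k → E n) | Orthonormal ℝ p.2} := by
        have : {p : E n × (Fin k → E n) | Orthonormal ℝ p.2}
            = ⋂ i, ⋂ j, {p | ⟪p.2 i, p.2 j⟫ = if i = j then (1 : ℝ) else 0} := by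
          ext p
          simp only [Set.mem_ofPred_eq, mem_iInter, orthonormal_iff_ite]
        rw [this]
        refine isClosed_iInter fun i => isClosed_iInter fun j => ?_
        have ci : Continuous fun p : E n × (Fin k → E n) => p.2 i :=
          (continuous_apply i).comp continuous_snd
        have cj : Continuous fun p : E n × (Fin k → E n) => p.2 j :=
          (continuous_apply j).comp continuous_snd
        exact isClosed_eq (ci.inner cj) continuous_const
      exact h1.inter h2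
    exact hc.measurableSet
  exact (ae_map_iff hΦ.aemeasurable hm).mpr h

lemma integrable_DX {Ω : Type*} [MeasurableSpace Ω] {ν : Measure Ω} [IsFiniteMeasure ν]
    {Φ : Ω → E n × (Fin k → E n)} (hΦ : Measurable Φ) (h : ∀ᵐ z ∂ν, Fr (Φ z))
    {X : E n → E n} (hX : ContDiff ℝ ∞ X) : Integrable (fun z => DX X (Φ z)) ν := by
  obtain ⟨M, hM0, hM⟩ := exists_bound hX
  refine Integrable.of_bound ((continuous_DX hX).measurable.comp hΦ).aestronglyMeasurable
    (k * M) ?_
  filter_upwards [h] with z hz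
  exact DX_bound hM hz

end Gen

section Data

variable {n k : ℕ} (w : Fin k ⊕ Fin k ⊕ Unit → E n)

/-- Position and frame of type (a). -/
noncomputable def Fa' (z : (Pt × (Fin k → ℝ)) × Fin k) : E n × (Fin k → E n) :=
  (pos w z.1.1 z.1.2, Va w z.1.2 z.2)

/-- Position and frame of type (b). -/
noncomputable def Fb' (z : ((Pt × Pt) × (Fin k → ℝ)) × Fin k) : E n × (Fin k → E n) :=
  (pos w z.1.1.1 z.1.2, Vb w z.1.1.2 z.1.2 z.2)

/-- Position and frame of type (c). -/
noncomputable def Fc' (z : Pt × (Fin k → ℝ)) : E n × (Fin k → E n) :=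
  (pos w z.1 z.2, th w z.2)

/-- Position on the sphere. -/
noncomputable def Fs' (z : ℝ × (Fin k → ℝ)) : E n := pos w (sin z.1, cos z.1) z.2

lemma measurable_Fa : Measurable (Fa' w) := by
  refine measurable_from_prod_countable_left fun i => ?_
  have h1 : Continuous fun z : Pt × (Fin k → ℝ) => Va w z.2 i := by
    unfold Va
    have h2 : Continuous fun z : Pt × (Fin k → ℝ) => th w z.2 :=
      (continuous_th' w).comp continuous_snd
    have h3 : Continuous fun z : Pt × (Fin k → ℝ) => Rh w z.2 :=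
      (continuous_Rh w).comp continuous_snd
    exact (h2.update i h3).update _ continuous_const
  have h4 : Continuous fun z : Pt × (Fin k → ℝ) => Fa' w (z, i) := (continuous_pos w).prodMk h1
  exact h4.measurable

lemma measurable_Fb : Measurable (Fb' w) := by
  refine measurable_from_prod_countable_left fun i => ?_
  have h1 : Continuous fun z : (Pt × Pt) × (Fin k → ℝ) => Vb w z.1.2 z.2 i := by
    unfold Vb
    have h2 : Continuous fun z : (Pt × Pt) × (Fin k → ℝ) => th w z.2 :=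
      (continuous_th' w).comp continuous_snd
    have h3 : Continuous fun z : (Pt × Pt) × (Fin k → ℝ) => Rh w z.2 :=
      (continuous_Rh w).comp continuous_snd
    have h4 : Continuous fun z : (Pt × Pt) × (Fin k → ℝ) => z.1.2.1 • Rh w z.2 + z.1.2.2 • ax w := by
      fun_prop
    exact h2.update i h4
  have h5 : Continuous fun z : (Pt × Pt) × (Fin k → ℝ) => pos w z.1.1 z.2 :=
    (continuous_pos w).comp ((continuous_fst.comp continuous_fst).prodMk continuous_snd)
  have h6 : Continuous fun z : (Pt × Pt) × (Fin k → ℝ) => Fb' w (z, i) := h5.prodMk h1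
  exact h6.measurable

lemma measurable_Fc : Measurable (Fc' w) := by
  have h1 : Continuous (Fc' w) := (continuous_pos w).prodMk ((continuous_th' w).comp continuous_snd)
  exact h1.measurable

lemma continuous_Fs : Continuous (Fs' w) := by
  have h1 : Continuous fun z : ℝ × (Fin k → ℝ) => ((sin z.1, cos z.1), z.2) := by fun_prop
  exact (continuous_pos w).comp h1

variable {w}

lemma Fr_a (hw : Orthonormal ℝ w) (h2 : 2 ≤ k) {x : Pt} (hx : x ∈ disc) (θ : Fin k → ℝ)
    (i : Fin k) : Fr (Fa' w ((x, θ), i)) :=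
  ⟨norm_pos_le hw (by omega) hx θ, orthonormal_Va hw (by omega) h2 θ i⟩

lemma Fr_b (hw : Orthonormal ℝ w) (hk : 0 < k) {x τ : Pt} (hx : x ∈ disc)
    (hτ : τ.1 ^ 2 + τ.2 ^ 2 = 1) (θ : Fin k → ℝ)
    (i : Fin k) : Fr (Fb' w (((x, τ), θ), i)) :=
  ⟨norm_pos_le hw hk hx θ, orthonormal_Vb hw hk hτ θ i⟩

lemma Fr_c (hw : Orthonormal ℝ w) (hk : 0 < k) {x : Pt} (hx : x ∈ disc) (θ : Fin k → ℝ) :
    Fr (Fc' w (x, θ)) :=
  ⟨norm_pos_le hw hk hx θ, orthonormal_th w hw θ⟩

end Data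

section Functionals

variable {n k : ℕ} {w : Fin k ⊕ Fin k ⊕ Unit → E n}

/-- The radial test function. -/
noncomputable def tA (w : Fin k ⊕ Fin k ⊕ Unit → E n) (X : E n → E n) (θ : Fin k → ℝ) : Pt → ℝ :=
  tst w X θ (Rh w θ)

/-- The axial test function. -/
noncomputable def tB (w : Fin k ⊕ Fin k ⊕ Unit → E n) (X : E n → E n) (θ : Fin k → ℝ) : Pt → ℝ :=
  tst w X θ (ax w)

lemma cont_dr {X : E n → E n} (hX : ContDiff ℝ ∞ X) {u : (Fin k → ℝ) → E n} (hu : Continuous u) :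
    Continuous fun p : Pt × (Fin k → ℝ) => dr (tst w X p.2 (u p.2)) p.1 := by
  have h := cont_q (w := w) hX hu (continuous_Rh w)
  refine h.congr fun p => ?_
  rw [dr_tst w hX]

lemma cont_dz {X : E n → E n} (hX : ContDiff ℝ ∞ X) {u : (Fin k → ℝ) → E n} (hu : Continuous u) :
    Continuous fun p : Pt × (Fin k → ℝ) => dz (tst w X p.2 (u p.2)) p.1 := by
  have h := cont_q (w := w) hX hu (continuous_const (y := ax w))
  refine h.congr fun p => ?_
  rw [dz_tst w hX]

variable (hw : Orthonormal ℝ w) (hk : 0 < k)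

include hw hk

lemma dr_bound {X : E n → E n} (hX : ContDiff ℝ ∞ X) {M : ℝ}
    (hM : ∀ x : E n, ‖x‖ ≤ 1 → ‖fderiv ℝ X x‖ ≤ M ∧ ‖X x‖ ≤ M)
    {x : Pt} (hx : x ∈ disc) (θ : Fin k → ℝ) {u : E n} (hu : ‖u‖ = 1) :
    |dr (tst w X θ u) x| ≤ M := by
  rw [dr_tst w hX]
  exact q_bound hw hk hM hx θ hu (norm_Rh hw hk θ)

lemma dz_bound {X : E n → E n} (hX : ContDiff ℝ ∞ X) {M : ℝ}
    (hM : ∀ x : E n, ‖x‖ ≤ 1 → ‖fderiv ℝ X x‖ ≤ M ∧ ‖X x‖ ≤ M)
    {x : Pt} (hx : x ∈ disc) (θ : Fin k → ℝ) {u : E n} (hu : ‖u‖ = 1) :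
    |dz (tst w X θ u) x| ≤ M := by
  rw [dz_tst w hX]
  exact q_bound hw hk hM hx θ hu (norm_ax' hw hk θ)

/-- Type (c). -/
lemma int_c (lc : Measure Pt) [IsFiniteMeasure lc] (hd : ∀ᵐ x ∂lc, x ∈ disc)
    (hi : Integrable (fun x => 1 / x.1) lc) {X : E n → E n} (hX : ContDiff ℝ ∞ X) :
    Integrable (fun θ => ∫ x, Lc k (tA w X θ) x ∂lc) (mm k) ∧
    ∫ z, DX X (Fc' w z) ∂(lc.prod (mm k)) = ∫ θ, (∫ x, Lc k (tA w X θ) x ∂lc) ∂(mm k) := by
  have hk' : (k : ℝ) ≠ 0 := by positivity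
  have h := piece hw hk lc (g := id) measurable_id hd hi hX (P := fun _ => 0) measurable_const
    (C := 0) (by filter_upwards with x θ; simp) (k : ℝ)
  simp only [zero_add, id] at h
  refine ⟨h.1, ?_⟩
  have h2 := h.2
  rw [div_self hk'] at h2
  simp only [one_mul] at h2
  exact h2

/-- Type (a). -/
lemma int_a (h2k : 2 ≤ k) (la : Measure Pt) [IsFiniteMeasure la] (hd : ∀ᵐ x ∂la, x ∈ disc)
    (hi : Integrable (fun x => 1 / x.1) la) {X : E n → E n} (hX : ContDiff ℝ ∞ X) :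
    Integrable (fun θ => ∫ x, La k (tA w X θ) (tB w X θ) x ∂la) (mm k) ∧
    ∫ z, DX X (Fa' w z) ∂((la.prod (mm k)).prod (cnt k)) =
      ∫ θ, (∫ x, La k (tA w X θ) (tB w X θ) x ∂la) ∂(mm k) := by
  have hk' : (k : ℝ) ≠ 0 := by positivity
  have := isProb_cnt hk
  obtain ⟨M, hM0, hM⟩ := exists_bound hX
  have hPc : Continuous fun p : Pt × (Fin k → ℝ) =>
      dr (tst w X p.2 (Rh w p.2)) p.1 + dz (tst w X p.2 (ax w)) p.1 :=
    (cont_dr hX (continuous_Rh w)).add (cont_dz (w := w) hX (continuous_const (y := ax w)))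
  have h := piece hw hk la (g := id) measurable_id hd hi hX
    (P := fun p => dr (tst w X p.2 (Rh w p.2)) p.1 + dz (tst w X p.2 (ax w)) p.1) hPc.measurable
    (C := 2 * M) (by
      filter_upwards [hd] with x hx θ
      have h1 := dr_bound hw hk hX hM hx θ (norm_Rh hw hk θ)
      have h2 := dz_bound hw hk hX hM hx θ (norm_ax' hw hk θ)
      calc |dr (tst w X θ (Rh w θ)) x + dz (tst w X θ (ax w)) x|
          ≤ |dr (tst w X θ (Rh w θ)) x| + |dz (tst w X θ (ax w)) x| := abs_add_le _ _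
        _ ≤ 2 * M := by linarith) ((k : ℝ) - 2)
  simp only [id] at h
  refine ⟨h.1, ?_⟩
  refine Eq.trans ?_ h.2
  have hFr : ∀ᵐ z ∂((la.prod (mm k)).prod (cnt k)), Fr (Fa' w z) := by
    have h1 : ∀ᵐ p ∂(la.prod (mm k)), p.1 ∈ disc := Measure.quasiMeasurePreserving_fst.ae hd
    have h2 : ∀ᵐ z ∂((la.prod (mm k)).prod (cnt k)), z.1.1 ∈ disc :=
      Measure.quasiMeasurePreserving_fst.ae h1
    filter_upwards [h2] with z hz
    exact Fr_a hw h2k hz z.1.2 z.2
  rw [integral_prod _ (integrable_DX (measurable_Fa w) hFr hX)]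
  refine integral_congr_ae (Filter.Eventually.of_forall fun p => ?_)
  simp only
  rw [integral_cnt]
  have e := DX_a w h2k hX p.1 p.2
  have e' : ∑ i, DX X (Fa' w (p, i)) = _ := e
  rw [e']
  field_simp

attribute [local irreducible] tst ang dr dz

/-- Type (b). -/
lemma int_b (lb : Measure (Pt × Pt)) [IsFiniteMeasure lb]
    (hd : ∀ᵐ x ∂lb, x.1 ∈ disc ∧ x.2.1 ^ 2 + x.2.2 ^ 2 = 1)
    (hi : Integrable (fun x => 1 / x.1.1) lb) {X : E n → E n} (hX : ContDiff ℝ ∞ X) :
    Integrable (fun θ => ∫ x, Lb k (tA w X θ) (tB w X θ) x.1 x.2 ∂lb) (mm k) ∧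
    ∫ z, DX X (Fb' w z) ∂((lb.prod (mm k)).prod (cnt k)) =
      ∫ θ, (∫ x, Lb k (tA w X θ) (tB w X θ) x.1 x.2 ∂lb) ∂(mm k) := by
  have hk' : (k : ℝ) ≠ 0 := by positivity
  have := isProb_cnt hk
  obtain ⟨M, hM0, hM⟩ := exists_bound hX
  set P : (Pt × Pt) × (Fin k → ℝ) → ℝ := fun p =>
    p.1.2.1 ^ 2 * dr (tst w X p.2 (Rh w p.2)) p.1.1
      + p.1.2.1 * p.1.2.2 * (dz (tst w X p.2 (Rh w p.2)) p.1.1 + dr (tst w X p.2 (ax w)) p.1.1)
      + p.1.2.2 ^ 2 * dz (tst w X p.2 (ax w)) p.1.1 with hP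
  have hc : Continuous fun p : (Pt × Pt) × (Fin k → ℝ) => (p.1.1, p.2) :=
    (continuous_fst.comp continuous_fst).prodMk continuous_snd
  have c1 : Continuous fun p : (Pt × Pt) × (Fin k → ℝ) => dr (tst w X p.2 (Rh w p.2)) p.1.1 :=
    (cont_dr (w := w) hX (continuous_Rh w)).comp hc
  have c2 : Continuous fun p : (Pt × Pt) × (Fin k → ℝ) => dz (tst w X p.2 (Rh w p.2)) p.1.1 :=
    (cont_dz (w := w) hX (continuous_Rh w)).comp hc
  have c3 : Continuous fun p : (Pt × Pt) × (Fin k → ℝ) => dr (tst w X p.2 (ax w)) p.1.1 :=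
    (cont_dr (w := w) hX (continuous_const (y := ax w))).comp hc
  have c4 : Continuous fun p : (Pt × Pt) × (Fin k → ℝ) => dz (tst w X p.2 (ax w)) p.1.1 :=
    (cont_dz (w := w) hX (continuous_const (y := ax w))).comp hc
  have hPc : Continuous P := by
    have t1 : Continuous fun p : (Pt × Pt) × (Fin k → ℝ) => p.1.2.1 := by fun_prop
    have t2 : Continuous fun p : (Pt × Pt) × (Fin k → ℝ) => p.1.2.2 := by fun_prop
    exact (((t1.pow 2).mul c1).add ((t1.mul t2).mul (c2.add c3))).add ((t2.pow 2).mul c4)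
  have h := piece hw hk lb (g := Prod.fst) measurable_fst (hd.mono fun x hx => hx.1) hi hX
    (P := P) hPc.measurable (C := 4 * M) (by
      filter_upwards [hd] with x hx θ
      have h1 := abs_le.mp (dr_bound hw hk hX hM hx.1 θ (norm_Rh hw hk θ))
      have h2 := abs_le.mp (dz_bound hw hk hX hM hx.1 θ (norm_Rh hw hk θ))
      have h3 := abs_le.mp (dr_bound hw hk hX hM hx.1 θ (norm_ax' hw hk θ))
      have h4 := abs_le.mp (dz_bound hw hk hX hM hx.1 θ (norm_ax' hw hk θ))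
      have ht := hx.2
      have ht1 : x.2.1 ^ 2 ≤ 1 := by nlinarith [sq_nonneg x.2.2]
      have ht2 : x.2.2 ^ 2 ≤ 1 := by nlinarith [sq_nonneg x.2.1]
      have ht12 : |x.2.1 * x.2.2| ≤ 1 := by
        rw [abs_le]; constructor <;> nlinarith [sq_nonneg (x.2.1 + x.2.2), sq_nonneg (x.2.1 - x.2.2)]
      have b1 : |x.2.1 ^ 2 * dr (tst w X θ (Rh w θ)) x.1| ≤ 1 * M := by
        rw [abs_mul]
        exact mul_le_mul (by rw [abs_of_nonneg (sq_nonneg _)]; exact ht1) (abs_le.mpr h1)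
          (abs_nonneg _) zero_le_one
      have b2 : |x.2.1 * x.2.2 * (dz (tst w X θ (Rh w θ)) x.1 + dr (tst w X θ (ax w)) x.1)|
          ≤ 1 * (2 * M) := by
        rw [abs_mul]
        refine mul_le_mul ht12 (abs_le.mpr ⟨?_, ?_⟩) (abs_nonneg _) zero_le_one <;> linarith
      have b3 : |x.2.2 ^ 2 * dz (tst w X θ (ax w)) x.1| ≤ 1 * M := by
        rw [abs_mul]
        exact mul_le_mul (by rw [abs_of_nonneg (sq_nonneg _)]; exact ht2) (abs_le.mpr h4)
          (abs_nonneg _) zero_le_one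
      simp only [hP]
      refine (abs_add_three _ _ _).trans ?_
      linarith) ((k : ℝ) - 1)
  refine ⟨h.1, ?_⟩
  refine Eq.trans ?_ h.2
  have hFr : ∀ᵐ z ∂((lb.prod (mm k)).prod (cnt k)), Fr (Fb' w z) := by
    have h1 : ∀ᵐ p ∂(lb.prod (mm k)), p.1.1 ∈ disc ∧ p.1.2.1 ^ 2 + p.1.2.2 ^ 2 = 1 :=
      Measure.quasiMeasurePreserving_fst.ae hd
    have h2 : ∀ᵐ z ∂((lb.prod (mm k)).prod (cnt k)),
        z.1.1.1 ∈ disc ∧ z.1.1.2.1 ^ 2 + z.1.1.2.2 ^ 2 = 1 :=
      Measure.quasiMeasurePreserving_fst.ae h1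
    filter_upwards [h2] with z hz
    exact Fr_b hw hk hz.1 hz.2 z.1.2 z.2
  rw [integral_prod _ (integrable_DX (measurable_Fb w) hFr hX)]
  refine integral_congr_ae (Filter.Eventually.of_forall fun p => ?_)
  simp only
  rw [integral_cnt]
  have e := DX_b w hX p.1.1 p.1.2 p.2
  have e' : ∑ i, DX X (Fb' w (p, i)) = _ := e
  rw [e']
  simp only [hP]
  field_simp

end Functionals

end Pool.Agent.Helper99.LB
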